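import Pool.Agent.Y192.FA.StB

/-!
The estimate for a minimal relation over function fields of one variable.
-/

set_option autoImplicit false

namespace Pool.Agent.Y448.FA

open Filter Set Topology FF Pool.Agent.Y192.FA

namespace Cl

/-- omitting one of `k + 1` functions with sum zero -/
theorem det_omit {R : Type} [CommRing R] [IsDomain R] {k : ℕ} (v : Fin k → Fin (k + 1) → R)
    (hv : ∀ l, ∑ j, v l j = 0) (a : Fin (k + 1)) :
    (Matrix.of fun l i : Fin k => v l (a.succAbove i)).det =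
      (-1) ^ (a : ℕ) * (Matrix.of fun l i : Fin k => v l i.succ).det := by
  by_cases ha : a = 0
  · subst ha
    simp
  · let x : Fin (k + 1) → R := fun j => if j = 0 then -1 else if j = a then 1 else 0
    let M : Matrix (Fin (k + 1)) (Fin (k + 1)) R := Matrix.of (Fin.cons x v)
    have hM0 : M.det = 0 := by
      rw [← Matrix.exists_mulVec_eq_zero_iff]
      refine ⟨fun _ => 1, ?_, ?_⟩
      · intro h
        exact one_ne_zero (congrFun h 0)
      · funext l
        refine Fin.cases ?_ (fun l => ?_) l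
        · simp only [M, Matrix.mulVec, dotProduct, Matrix.of_apply, Fin.cons_zero, mul_one,
            Pi.zero_apply]
          rw [Fin.sum_univ_succ]
          have h1 : ∀ i : Fin k, x i.succ = if i.succ = a then 1 else 0 := fun i => by
            simp [x, Fin.succ_ne_zero]
          simp only [h1]
          obtain ⟨b, rfl⟩ := Fin.exists_succ_eq.mpr ha
          simp [x]
        · simp only [M, Matrix.mulVec, dotProduct, Matrix.of_apply, Fin.cons_succ, mul_one,
            Pi.zero_apply]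
          exact hv l
    rw [Matrix.det_succ_row_zero] at hM0
    have hsub : ∀ j : Fin (k + 1), M.submatrix Fin.succ j.succAbove =
        Matrix.of fun l i : Fin k => v l (j.succAbove i) := by
      intro j
      ext l i
      simp [M]
    have hrow : ∀ j, M 0 j = x j := fun j => by simp [M]
    simp only [hsub, hrow] at hM0
    rw [Fin.sum_univ_succ] at hM0
    obtain ⟨b, hb⟩ := Fin.exists_succ_eq.mpr ha
    have h1 : ∀ i : Fin k, x i.succ = if i = b then 1 else 0 := fun i => by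
      simp [x, Fin.succ_ne_zero, ← hb]
    simp only [h1] at hM0
    simp only [mul_ite, mul_one, mul_zero, ite_mul, zero_mul, Finset.sum_ite_eq', Finset.mem_univ,
      if_true] at hM0
    rw [hb] at hM0
    have hx0 : x 0 = -1 := by simp [x]
    rw [hx0] at hM0
    simp only [Fin.val_zero, pow_zero, one_mul, Fin.succAbove_zero] at hM0
    have hsq : ((-1 : R) ^ (a : ℕ)) * (-1) ^ (a : ℕ) = 1 := by
      rw [← mul_pow]; simp
    have h2 : (-1 : R) ^ (a : ℕ) * (Matrix.of fun l i : Fin k => v l (a.succAbove i)).det =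
        (Matrix.of fun l i : Fin k => v l i.succ).det := by
      linear_combination hM0
    rw [← h2, ← mul_assoc, hsq, one_mul]

theorem det_omit' {R : Type} [CommRing R] [IsDomain R] {k : ℕ} (v : Fin k → Fin (k + 1) → R)
    (hv : ∀ l, ∑ j, v l j = 0) (a : Fin (k + 1)) :
    (Matrix.of fun l i : Fin k => v l (a.succAbove i)).det =
      (Matrix.of fun l i : Fin k => v l i.succ).det ∨
    (Matrix.of fun l i : Fin k => v l i.succ).det +
      (Matrix.of fun l i : Fin k => v l (a.succAbove i)).det = 0 := by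
  rw [det_omit v hv a]
  rcases Nat.even_or_odd (a : ℕ) with hp | hp
  · left; rw [hp.neg_one_pow, one_mul]
  · right; rw [hp.neg_one_pow]; ring

section
variable {N : ℕ} (c : Curve N)

theorem iter_add (l : ℕ) (f g : c.Mr) :
    (c.Dr : c.Mr → c.Mr)^[l] (f + g) = (c.Dr : c.Mr → c.Mr)^[l] f + (c.Dr : c.Mr → c.Mr)^[l] g := by
  induction l generalizing f g with
  | zero => rfl
  | succ l ih => rw [Function.iterate_succ_apply, map_add, ih]; rfl

theorem iter_zero (l : ℕ) : (c.Dr : c.Mr → c.Mr)^[l] 0 = 0 := by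
  induction l with
  | zero => rfl
  | succ l ih => rw [Function.iterate_succ_apply, map_zero, ih]

theorem iter_sum (l : ℕ) {ι : Type} (s : Finset ι) (f : ι → c.Mr) :
    (c.Dr : c.Mr → c.Mr)^[l] (∑ i ∈ s, f i) = ∑ i ∈ s, (c.Dr : c.Mr → c.Mr)^[l] (f i) := by
  classical
  induction s using Finset.induction_on with
  | empty =>
    rw [Finset.sum_empty, Finset.sum_empty]
    exact iter_zero c l
  | insert a s ha ih => rw [Finset.sum_insert ha, Finset.sum_insert ha, iter_add, ih]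

theorem wrd_omit (hdom : IsDomain c.Mr) {k : ℕ} (e : Fin (k + 1) → c.Mr) (he : ∑ i, e i = 0)
    (a : Fin (k + 1)) :
    ∃ x : ℂ, c.wrd (fun i : Fin k => e i.succ) = x • c.wrd (fun i => e (a.succAbove i)) := by
  have h := det_omit' (fun (l : Fin k) j => (c.Dr : c.Mr → c.Mr)^[(l : ℕ)] (e j))
    (fun l => by rw [← iter_sum, he, iter_zero]) a
  have h1 : ∀ g : Fin k → c.Mr, c.wrd g =
      (Matrix.of fun l b : Fin k => (c.Dr : c.Mr → c.Mr)^[(l : ℕ)] (g b)).det := by
    intro g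
    unfold Curve.wrd
    rw [← Matrix.det_transpose]
    rfl
  rw [← h1, ← h1] at h
  rcases h with h | h
  · exact ⟨1, by rw [one_smul, h]⟩
  · refine ⟨-1, ?_⟩
    rw [neg_smul, one_smul]
    exact eq_neg_of_add_eq_zero_left h

end

variable {N : ℕ} {c : Curve N} {F : c.Mr}

theorem dom_of (hr : St_ring) (c : Curve N) : IsDomain c.Mr := by
  obtain ⟨h1, h2, -, -⟩ := hr N c
  have : Nontrivial c.Mr := h2
  have h3 : NoZeroDivisors c.Mr := ⟨fun {a b} h => h1 a b h⟩
  exact NoZeroDivisors.to_isDomain _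

/-- order at a point -/
theorem ordb (hr : St_ring) (ho : St_ord) (hw : St_wr) (r : Rad c F) (Φ : Finset (Fin N → ℤ))
    (w k : ℕ) (e : Fin (k + 1) → c.Mr) (he : ∑ i, e i = 0) (lm : Fin (k + 1) → c.P → ℝ)
    (nu : Fin (k + 1) → c.P → ℤ) (hc : ∀ i, Ctl r (e i) (lm i) (nu i) Φ w)
    (hW : c.wrd (fun i : Fin k => e i.succ) ≠ 0) (z : c.P) (a : Fin (k + 1)) :
    ∑ l, nu l z - nu a z - k * w * (∑ φ ∈ Φ, |c.del z φ| + c.bad z)
        - (k : ℤ) ^ 2 * max 1 (c.bad z) ≤
      (c.ord z (c.wrd (fun i : Fin k => e i.succ))).untop₀ := by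
  have hz : z ∈ c.E := trivial
  obtain ⟨x, hx'⟩ := wrd_omit c (dom_of hr c) e he a
  have h1 := (hw N c k (fun i => e (a.succAbove i))).2.1 z hz
    (fun j => nu (a.succAbove j) z - w * (∑ φ ∈ Φ, |c.del z φ| + c.bad z))
    (fun j => (hc (a.succAbove j)).2 z hz)
  have h2 := (ho N c).1 z hz
  have h3 : c.ord z (c.wrd (fun i => e (a.succAbove i))) ≤
      c.ord z (c.wrd (fun i : Fin k => e i.succ)) := by
    rw [hx']
    exact h2.2.2.1 _ _
  have h4 : c.ord z (c.wrd (fun i : Fin k => e i.succ)) ≠ ⊤ := (hr N c).2.2.2 _ hW z hz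
  have h5 := h1.trans h3
  rw [← WithTop.coe_untop₀_of_ne_top h4, WithTop.coe_le_coe] at h5
  refine le_trans (le_of_eq ?_) h5
  rw [Finset.sum_sub_distrib, Finset.sum_const, Finset.card_univ, Fintype.card_fin,
    Fin.sum_univ_succAbove _ a]
  simp only [nsmul_eq_mul]
  ring

theorem del_sub (z : c.P) (m m' : Fin N → ℤ) : c.del z (m - m') = c.del z m - c.del z m' := by
  unfold Curve.del
  rw [← Finset.sum_sub_distrib]
  exact Finset.sum_congr rfl fun i _ => by rw [Pi.sub_apply]; ring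

/-- the comparison of orders, in the form which is used -/
theorem ordc (hr : St_ring) (ho : St_ord) (hw : St_wr) (r : Rad c F) (hF : F ≠ 0)
    (Φ : Finset (Fin N → ℤ))
    (w k : ℕ) (m : Fin (k + 1) → Fin N → ℤ) (a : Fin (k + 1) → ℕ)
    (e : Fin (k + 1) → c.Mr) (he : ∑ i, e i = 0) (lm : Fin (k + 1) → c.P → ℝ)
    (hc : ∀ i, Ctl r (e i) (lm i) (fun z => c.del z (m i) + a i * (c.ord z F).untop₀) Φ w)
    (hW : c.wrd (fun i : Fin k => e i.succ) ≠ 0) (Z : c.P → ℤ) (hZ0 : ∀ z, 0 ≤ Z z)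
    (hZ : ∀ z ∈ c.U, (∃ i, a i ≠ 0) → c.vz F z → 1 ≤ Z z)
    (i j : Fin (k + 1)) (hi : a i = 0) (hj : a j = 0) (z : c.P) :
    ∑ l, ((c.del z (m l) : ℝ) + a l * ((c.ord z F).untop₀ : ℤ))
      - (1 / 2) * ((c.del z (m i) : ℝ) + c.del z (m j))
      + (1 / 2) * ((|c.del z (m i - m j)| : ℤ) : ℝ)
      - k * w * ∑ φ ∈ Φ, ((|c.del z φ| : ℤ) : ℝ) - (k * w + k ^ 2) * (c.bad z : ℝ)
      - k ^ 2 * (Z z : ℝ) ≤ ((c.ord z (c.wrd (fun i : Fin k => e i.succ))).untop₀ : ℤ) := by
  have hz : z ∈ c.E := trivial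
  have hb := ordb hr ho hw r Φ w k e he lm _ hc hW z
  have hZr : (0 : ℝ) ≤ Z z := by exact_mod_cast hZ0 z
  have hb' : ∀ b, ∑ l, ((c.del z (m l) : ℝ) + a l * ((c.ord z F).untop₀ : ℤ)) -
      ((c.del z (m b) : ℝ) + a b * ((c.ord z F).untop₀ : ℤ)) -
      k * w * (∑ φ ∈ Φ, ((|c.del z φ| : ℤ) : ℝ) + c.bad z)
        - (k : ℝ) ^ 2 * ((max 1 (c.bad z) : ℤ) : ℝ) ≤
      ((c.ord z (c.wrd (fun i : Fin k => e i.succ))).untop₀ : ℤ) := by
    intro b
    have := hb b
    have h : ((∑ l, (c.del z (m l) + (a l : ℤ) * (c.ord z F).untop₀) -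
      (c.del z (m b) + (a b : ℤ) * (c.ord z F).untop₀) -
      k * w * (∑ φ ∈ Φ, |c.del z φ| + c.bad z) - (k : ℤ) ^ 2 * max 1 (c.bad z) : ℤ) : ℝ) ≤
      ((c.ord z (c.wrd (fun i : Fin k => e i.succ))).untop₀ : ℤ) := by
      exact_mod_cast this
    refine le_trans (le_of_eq ?_) h
    push_cast
    rfl
  by_cases hU : z ∈ c.U
  · have hd : ∀ m', c.del z m' = 0 := (ho N c).2.1 z hU
    have hbad : c.bad z = 0 := (ho N c).2.2.1 z hU
    have hW0 : 0 ≤ c.ord z (c.wrd (fun i : Fin k => e i.succ)) := ((ho N c).1 z hz).2.2.2.1 hU _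
    have hW1 : (0 : ℝ) ≤ ((c.ord z (c.wrd (fun i : Fin k => e i.succ))).untop₀ : ℤ) := by
      have h4 : c.ord z (c.wrd (fun i : Fin k => e i.succ)) ≠ ⊤ := (hr N c).2.2.2 _ hW z hz
      rw [← WithTop.coe_untop₀_of_ne_top h4] at hW0
      have : (0 : ℤ) ≤ (c.ord z (c.wrd (fun i : Fin k => e i.succ))).untop₀ := by
        exact_mod_cast hW0
      exact_mod_cast this
    have hmax : max 1 (c.bad z) = 1 := by rw [hbad]; rfl
    by_cases hcase : (∃ i, a i ≠ 0) ∧ c.vz F z
    · have hZ1 : (1 : ℝ) ≤ Z z := by exact_mod_cast hZ z hU hcase.1 hcase.2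
      have := hb' i
      rw [hmax] at this
      simp only [hd, hbad, hi, Int.cast_zero, Int.cast_one, abs_zero, Finset.sum_const_zero,
        mul_zero, mul_one, add_zero, sub_zero, Nat.cast_zero, zero_mul, zero_add] at this ⊢
      nlinarith [sq_nonneg (k : ℝ)]
    · have hν : ∑ l, ((c.del z (m l) : ℝ) + a l * ((c.ord z F).untop₀ : ℤ)) = 0 := by
        apply Finset.sum_eq_zero
        intro l _
        rw [hd, Int.cast_zero, zero_add]
        by_cases hal : a l = 0
        · rw [hal]; simp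
        · have hne : ¬ c.vz F z := fun h => hcase ⟨⟨l, hal⟩, h⟩
          have h5 : (c.ord z F).untop₀ = 0 := by
            have h6 : (0 : WithTop ℤ) ≤ c.ord z F := ((ho N c).1 z hz).2.2.2.1 hU _
            have h7 : c.ord z F ≠ ⊤ := (hr N c).2.2.2 _ hF z hz
            unfold Curve.vz at hne
            rw [← WithTop.coe_untop₀_of_ne_top h7] at h6 hne
            have h8 : (0 : ℤ) ≤ (c.ord z F).untop₀ := by exact_mod_cast h6
            have h9 : ¬ (1 : ℤ) ≤ (c.ord z F).untop₀ := by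
              intro h
              exact hne (by exact_mod_cast h)
            omega
          rw [h5]; simp
      rw [hν]
      simp only [hd, hbad, Int.cast_zero, abs_zero, Finset.sum_const_zero, mul_zero, add_zero,
        sub_zero]
      nlinarith [sq_nonneg (k : ℝ)]
  · have hbad : 1 ≤ c.bad z := ((ho N c).2.2.2.1 z).2 hU
    have hmax : max 1 (c.bad z) = c.bad z := max_eq_right hbad
    have h1 := hb' i
    have h2 := hb' j
    rw [hi, hmax] at h1
    rw [hj, hmax] at h2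
    rw [del_sub]
    have h3 : (0 : ℝ) ≤ (k : ℝ) ^ 2 * Z z := mul_nonneg (sq_nonneg _) hZr
    push_cast at h1 h2 h3 ⊢
    rcases abs_cases ((c.del z (m i) : ℝ) - c.del z (m j)) with h | h
    · rw [h.1]; linarith
    · rw [h.1]; linarith

/-- divisors with a given counting function -/
def Pc (c : Curve N) (R : ℝ) (E : c.P → ℝ) (v : ℝ) : Prop := c.LocFin E ∧ c.cnt E R = v

theorem Pc.add (h : St_cnt) {R : ℝ} {f g : c.P → ℝ} {v w : ℝ} (hf : Pc c R f v)
    (hg : Pc c R g w) : Pc c R (fun z => f z + g z) (v + w) := by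
  obtain ⟨h1, h2⟩ := (h N c).1 f g hf.1 hg.1
  exact ⟨h1, by rw [h2, hf.2, hg.2]⟩

theorem Pc.smul (h : St_cnt) {R : ℝ} {f : c.P → ℝ} {v : ℝ} (a : ℝ) (hf : Pc c R f v) :
    Pc c R (fun z => a * f z) (a * v) := by
  obtain ⟨h1, h2⟩ := (h N c).2.1 a f hf.1
  exact ⟨h1, by rw [h2, hf.2]⟩

theorem Pc.zero {R : ℝ} : Pc c R (fun _ => 0) 0 := by
  refine ⟨?_, ?_⟩
  · unfold Curve.LocFin
    rw [show Function.support (fun _ : c.P => (0 : ℝ)) = ∅ by ext z; simp]
    exact Set.finite_empty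
  · unfold Curve.cnt
    simp

theorem Pc.sum (h : St_cnt) {R : ℝ} {ι : Type} (s : Finset ι) {f : ι → c.P → ℝ} {v : ι → ℝ}
    (hf : ∀ i ∈ s, Pc c R (f i) (v i)) : Pc c R (fun z => ∑ i ∈ s, f i z) (∑ i ∈ s, v i) := by
  classical
  induction s using Finset.induction_on with
  | empty => simpa using Pc.zero (c := c) (R := R)
  | insert a s ha ih =>
    simp only [Finset.sum_insert ha]
    exact (hf a (Finset.mem_insert_self _ _)).add h
      (ih fun i hi => hf i (Finset.mem_insert_of_mem hi))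

theorem mon_ne (hr : St_ring) (m : Fin N → ℤ) : c.mon m ≠ 0 := by
  have := dom_of hr c
  exact (c.monu m).ne_zero

/-- the sum of the orders of a monomial is zero -/
theorem jen_mon (hr : St_ring) (ho : St_ord) (hj : St_jen) (m : Fin N → ℤ) (R : ℝ) :
    c.cnt (fun z => (c.del z m : ℤ)) R = 0 := by
  have h := hj N c (c.mon m) (mon_ne hr m) R
  have h1 : (fun z => (((c.ord z (c.mon m)).untop₀ : ℤ) : ℝ)) =
      fun z => ((c.del z m : ℤ) : ℝ) := by
    funext z
    rw [((ho N c).1 z trivial).2.2.2.2.2 m]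
    simp
  rw [h1] at h
  exact h

end Cl

open Cl in
/-- the estimate for a minimal relation -/
theorem t_cl : St_ring → St_ord → St_cnt → St_jen → St_ht → St_wr → St_cl := by
  intro hr ho hcn hj hh hw N c F r Φ w k m a e Z hF hk hc he hli ha hZ0 hZf hZ i j hi hj'
  set W := c.wrd (fun i : Fin k => e i.succ) with hWdef
  have hW : W ≠ 0 := (hw N c k (fun i => e i.succ)).1 hli
  have key : ∀ R : ℝ, c.ht (m i - m j) R ≤
      2 * (k * w * ∑ φ ∈ Φ, c.ht φ R
        + (k * w + k ^ 2) * (c.cnt (fun z => (c.bad z : ℤ)) R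
          + c.cnt (fun z => (Z z : ℤ)) R)) := by
    intro R
    have pdel : ∀ m', Pc c R (fun z => (c.del z m' : ℤ)) 0 :=
      fun m' => ⟨(ho N c).2.2.2.2.2.2.2 m', jen_mon hr ho hj m' R⟩
    have pabs : ∀ m', Pc c R (fun z => (|c.del z m'| : ℤ)) (c.ht m' R) :=
      fun m' => ⟨(hcn N c).2.2.2 _ _ ((ho N c).2.2.2.2.2.2.2 m') (fun z _ => by
        push_cast; rw [abs_abs]), ((hh N c).2 R m').symm⟩
    have pF : Pc c R (fun z => ((c.ord z F).untop₀ : ℤ)) 0 :=
      ⟨(ho N c).2.2.2.2.2.1 F hF, hj N c F hF R⟩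
    have pbad : Pc c R (fun z => (c.bad z : ℤ)) (c.cnt (fun z => (c.bad z : ℤ)) R) :=
      ⟨(ho N c).2.2.2.2.2.2.1, rfl⟩
    have pZ : Pc c R (fun z => (Z z : ℤ)) (c.cnt (fun z => (Z z : ℤ)) R) := ⟨hZf, rfl⟩
    have pG := (((((Pc.sum hcn (R := R) Finset.univ
      (fun l _ => (pdel (m l)).add hcn (pF.smul hcn (a l : ℝ)))).add hcn
      (((pdel (m i)).add hcn (pdel (m j))).smul hcn (-(1 / 2)))).add hcn
      ((pabs (m i - m j)).smul hcn (1 / 2))).add hcn
      ((Pc.sum hcn (R := R) Φ (fun φ _ => pabs φ)).smul hcn (-((k : ℝ) * w)))).add hcn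
      (pbad.smul hcn (-((k : ℝ) * w + k ^ 2)))).add hcn (pZ.smul hcn (-((k : ℝ) ^ 2)))
    have hcntW := (hcn N c).2.2.1 _ (fun z => ((c.ord z W).untop₀ : ℤ)) pG.1
      ((ho N c).2.2.2.2.2.1 W hW) (by
        intro z hz
        have := ordc hr ho hw r hF Φ w k m a e he _ hc hW Z hZ0 hZ i j hi hj' z
        refine le_trans (le_of_eq ?_) this
        ring) R
    rw [pG.2, hj N c W hW R] at hcntW
    have hcZ : 0 ≤ c.cnt (fun z => (Z z : ℤ)) R := by
      have h6 := (hcn N c).2.2.1 (fun _ => 0) (fun z => (Z z : ℤ)) (Pc.zero (c := c) (R := R)).1 hZf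
        (fun z _ => by exact_mod_cast hZ0 z) R
      rwa [(Pc.zero (c := c) (R := R)).2] at h6
    have hkw : (0 : ℝ) ≤ k * w * c.cnt (fun z => (Z z : ℤ)) R := by positivity
    simp only [mul_zero, add_zero, Finset.sum_const_zero, zero_add] at hcntW
    linarith
  intro δ hδ
  refine Filter.Eventually.of_forall fun n => ?_
  have h1 := key (r.s n)
  have h2 := mul_pos hδ (r.pos (r.s n))
  linarith

end Pool.Agent.Y448.FA
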