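import Pool.Agent.Y192.FA.StB

/-!
FA1: the ring of functions and the orders over function fields (helper448).
-/

set_option autoImplicit false

namespace Pool.Agent.Y448.FA

open Filter Set Topology FF Pool.Agent.W603.LV Pool.Agent.Y192.FA

variable {N : ℕ} (c : Curve N)

theorem coe_ne {f : c.Mr} (hf : f ≠ 0) : (f : c.L) ≠ 0 := fun h => hf (Subtype.ext h)

theorem ratio_const (a b : c.Mr) (hb : b ≠ 0) (h : a * c.Dr b = b * c.Dr a) :
    ∃ x : ℂ, a = x • b := by
  have hb' := coe_ne c hb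
  have h1 : (a : c.L) * c.D (b : c.L) = (b : c.L) * c.D (a : c.L) := congrArg (Subtype.val) h
  have h2 : (a : c.L) = ((a : c.L) / (b : c.L)) * (b : c.L) := (div_mul_cancel₀ _ hb').symm
  have h3 : c.D ((a : c.L) / (b : c.L)) = 0 := by
    have h4 : c.D (a : c.L) = ((a : c.L) / (b : c.L)) * c.D (b : c.L) +
        (b : c.L) * c.D ((a : c.L) / (b : c.L)) := by
      conv_lhs => rw [h2]
      rw [c.D.leibniz, smul_eq_mul, smul_eq_mul]
    rw [h4, mul_add, ← mul_assoc, mul_div_cancel₀ _ hb'] at h1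
    have h5 : (b : c.L) * ((b : c.L) * c.D ((a : c.L) / (b : c.L))) = 0 := by
      have := h1
      linear_combination -this
    exact ((mul_eq_zero.1 ((mul_eq_zero.1 h5).resolve_left hb'))).resolve_left hb'
  obtain ⟨x, hx⟩ := const_of_der c.hD h3
  refine ⟨x, Subtype.ext ?_⟩
  rw [h2, hx]
  change _ = x • (b : c.L)
  rw [Algebra.smul_def]

theorem t_ring : St_ring := by
  intro N c
  refine ⟨fun f g h => mul_eq_zero.1 h, inferInstance, ratio_const c, fun f hf z _ => ?_⟩
  rw [Curve.ord_of_ne c hf]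
  exact WithTop.coe_ne_top

theorem ord_mul' (z : c.P) (f g : c.Mr) : c.ord z (f * g) = c.ord z f + c.ord z g := by
  by_cases hf : f = 0
  · rw [hf, zero_mul, Curve.ord_top, WithTop.top_add]
  by_cases hg : g = 0
  · rw [hg, mul_zero, Curve.ord_top, WithTop.add_top]
  rw [Curve.ord_of_ne c hf, Curve.ord_of_ne c hg, Curve.ord_of_ne c (mul_ne_zero hf hg),
    ← WithTop.coe_add]
  congr 1
  exact z.ord_mul (coe_ne c hf) (coe_ne c hg)

theorem ord_add' (z : c.P) (f g : c.Mr) : min (c.ord z f) (c.ord z g) ≤ c.ord z (f + g) := by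
  by_cases hf : f = 0
  · rw [hf, zero_add]
    exact min_le_right _ _
  by_cases hg : g = 0
  · rw [hg, add_zero]
    exact min_le_left _ _
  by_cases hfg : f + g = 0
  · rw [hfg, Curve.ord_top]
    exact le_top
  rw [Curve.ord_of_ne c hf, Curve.ord_of_ne c hg, Curve.ord_of_ne c hfg]
  have h := z.ord_add (coe_ne c hf) (coe_ne c hg) (coe_ne c hfg)
  rcases min_le_iff.1 h with h1 | h1
  · exact (min_le_left _ _).trans (WithTop.coe_le_coe.2 h1)
  · exact (min_le_right _ _).trans (WithTop.coe_le_coe.2 h1)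

theorem ord_smul' (z : c.P) (x : ℂ) (f : c.Mr) : c.ord z f ≤ c.ord z (x • f) := by
  by_cases h : x • f = 0
  · rw [h, Curve.ord_top]
    exact le_top
  have hx : x ≠ 0 := by
    rintro rfl
    exact h (zero_smul _ _)
  have hf : f ≠ 0 := by
    rintro rfl
    exact h (smul_zero _)
  rw [Curve.ord_of_ne c hf, Curve.ord_of_ne c h, WithTop.coe_le_coe]
  have e : ((x • f : c.Mr) : c.L) = algebraMap ℂ c.L x * (f : c.L) := by
    rw [← Algebra.smul_def]
    rfl
  have hx' : algebraMap ℂ c.L x ≠ 0 := fun h0 => hx ((map_eq_zero _).1 h0)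
  rw [e, z.ord_mul hx' (coe_ne c hf), z.ord_const hx, zero_add]

theorem bad_U {z : c.P} (hz : z ∈ c.U) : c.bad z = 0 := by
  unfold Curve.bad
  rw [if_pos hz]

theorem bad_not {z : c.P} (hz : z ∉ c.U) : c.bad z = 1 + max (-(vo z c.D)) 0 := by
  unfold Curve.bad
  rw [if_neg hz]

theorem ord_D' (z : c.P) (f : c.Mr) (k : ℤ) (h : (k : WithTop ℤ) ≤ c.ord z f) :
    ((k - max 1 (c.bad z) : ℤ) : WithTop ℤ) ≤ c.ord z (c.Dr f) := by
  rw [Curve.le_ord] at h ⊢
  refine (c.ge_D z h).mono ?_
  by_cases hz : z ∈ c.U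
  · rw [bad_U c hz]
    have := c.vo_U hz
    have h1 : max (1 : ℤ) 0 = 1 := rfl
    rw [h1]
    omega
  · rw [bad_not c hz]
    have h1 := le_max_left (-(vo z c.D)) 0
    have h2 := le_max_right (1 : ℤ) (1 + max (-(vo z c.D)) 0)
    omega

theorem compl_U : (c.U)ᶜ.Finite := by
  have h : (c.U)ᶜ ⊆ (c.B : Set c.P) ∪ ⋃ i : Fin N, {z : c.P | z.ord (c.x i : c.L) ≠ 0} := by
    intro z hz
    by_cases h1 : z ∈ c.B
    · exact Or.inl h1
    · right
      rw [mem_iUnion]
      by_contra hcon
      push Not at hcon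
      apply hz
      refine ⟨h1, fun i => ?_⟩
      by_contra h2
      exact hcon i h2
  refine Finite.subset (c.B.finite_toSet.union (finite_iUnion fun i => ?_)) h
  exact finite_support (k := ℂ) (c.x i : c.L)

theorem t_ord : St_ord := by
  intro N c
  refine ⟨fun z _ => ⟨ord_mul' c z, ord_add' c z, ord_smul' c z, fun hz f => ?_, ord_D' c z,
    fun m => ?_⟩, fun z hz m => c.del_U hz m, fun z hz => bad_U c hz, fun z => ?_, trivial,
    fun f hf => ?_, ?_, fun m => ?_⟩
  · have h := (c.le_ord (z := z) (f := f) (k := 0)).2 (f.2 z hz)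
    exact_mod_cast h
  · have h0 : c.mon m ≠ 0 := (c.monu m).ne_zero
    rw [Curve.ord_of_ne c h0, c.coe_mon, c.ord_monf]
  · by_cases hz : z ∈ c.U
    · rw [bad_U c hz]
      exact ⟨le_rfl, fun h => absurd hz h⟩
    · rw [bad_not c hz]
      have := le_max_right (-(vo z c.D)) 0
      exact ⟨by omega, fun _ => by omega⟩
  · refine (finite_support (k := ℂ) (f : c.L)).subset fun z hz => ?_
    rw [Function.mem_support] at hz
    intro h0
    apply hz
    rw [Curve.ord_of_ne c hf]
    have h0' : z.ord (f : c.L) = 0 := h0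
    rw [h0', WithTop.untop₀_coe, Int.cast_zero]
  · refine (compl_U c).subset fun z hz => ?_
    rw [Function.mem_support] at hz
    intro h0
    apply hz
    rw [bad_U c h0]
    exact Int.cast_zero
  · refine (compl_U c).subset fun z hz => ?_
    rw [Function.mem_support] at hz
    intro h0
    apply hz
    rw [c.del_U h0]
    exact Int.cast_zero

end Pool.Agent.Y448.FA
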